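import Pool.Agent.helper35.DR.SpecA

/-! Project dr, module GVM: supplements of an abelian minimal normal subgroup. -/

set_option autoImplicit false

namespace Pool.Agent.DR

open Pool.Agent.helper58.DC Pool.Agent.DI

theorem GVM : GVM_stmt := by
  intro A _ _ N hN
  have hnor : N.Normal := hN.nor
  have h1 : ∀ V : Subgroup A, V ⊔ N = ⊤ → V = ⊤ ∨ IsCpl N V := by
    intro V hV
    have hK : (V ⊓ N).Normal := by
      refine ⟨fun x hx g => ?_⟩
      have hg : g ∈ V ⊔ N := by rw [hV]; exact Subgroup.mem_top g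
      obtain ⟨v, hv, n, hn, rfl⟩ := Subgroup.mem_sup_of_normal_right.1 hg
      have hxV : x ∈ V := (Subgroup.mem_inf.1 hx).1
      have hxN : x ∈ N := (Subgroup.mem_inf.1 hx).2
      have hc : n * x * n⁻¹ = x := by
        rw [hN.comm n hn x hxN, mul_assoc, mul_inv_cancel, mul_one]
      have he : v * n * x * (v * n)⁻¹ = v * x * v⁻¹ := by
        calc v * n * x * (v * n)⁻¹ = v * (n * x * n⁻¹) * v⁻¹ := by group
          _ = v * x * v⁻¹ := by rw [hc]
      rw [he]
      exact Subgroup.mem_inf.2 ⟨V.mul_mem (V.mul_mem hv hxV) (V.inv_mem hv),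
        hnor.conj_mem x hxN v⟩
    rcases hN.min _ hK inf_le_right with h | h
    · exact Or.inr ⟨h, hV⟩
    · left
      have hNV : N ≤ V := by
        rw [← h]; exact inf_le_left
      rw [← hV, sup_eq_left.2 hNV]
  refine ⟨h1, fun V hV => ⟨?_, fun W hW => ?_⟩, fun V hV => ?_⟩
  · rintro rfl
    exact hN.ne (by simpa using hV.1)
  · have hWN : W ⊔ N = ⊤ := by
      refine top_le_iff.1 ?_
      rw [← hV.2]
      exact sup_le_sup_right hW N
    rcases h1 W hWN with h | h
    · exact Or.inr h
    · left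
      refine le_antisymm (fun w hw => ?_) hW
      have hg : w ∈ V ⊔ N := by rw [hV.2]; exact Subgroup.mem_top w
      obtain ⟨v, hv, n, hn, rfl⟩ := Subgroup.mem_sup_of_normal_right.1 hg
      have hnW : n ∈ W := by
        have := W.mul_mem (W.inv_mem (hW hv)) hw
        rwa [inv_mul_cancel_left] at this
      have hn1 : n ∈ W ⊓ N := Subgroup.mem_inf.2 ⟨hnW, hn⟩
      rw [h.1, Subgroup.mem_bot] at hn1
      rw [hn1, mul_one]
      exact hv
  · have hc : Subgroup.IsComplement' V N := by
      apply Subgroup.isComplement'_of_disjoint_and_mul_eq_univ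
      · exact disjoint_iff.2 hV.1
      · rw [← Subgroup.mul_normal, hV.2]
        rfl
    exact hc.card_mul_card

end Pool.Agent.DR
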