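import Pool.Agent.helper35.DR.SpecZ

/-! Project dr, module ZST: stabilisers for `XC X n`. -/

set_option autoImplicit false

namespace Pool.Agent.DR

open Pool.Agent.helper58.DC Pool.Agent.DI

theorem ZST : ZST_stmt := by
  intro G E A _ _ _ X n C ψ
  refine ⟨?_, ?_, ?_⟩
  · exact Subgroup.ext fun x => Iff.rfl
  · refine Subgroup.ext fun x => ?_
    rw [Subgroup.mem_map, Subgroup.mem_comap, Subgroup.mem_map]
    constructor
    · rintro ⟨y, hy, rfl⟩
      refine ⟨y.1.1, hy, ?_⟩
      exact y.2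
    · rintro ⟨e, he, hex⟩
      have hm : (e, x) ∈ FC X n := hex
      exact ⟨⟨(e, x), hm⟩, he, rfl⟩
  · intro M χ h e
    exact h (fcE X n e)

end Pool.Agent.DR
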