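import Pool.Agent.helper35.DR.SpecA

/-! Project dr, module RCY: reduced groups with a normal `p`-subgroup and cyclic quotient are trivial. -/

set_option autoImplicit false

namespace Pool.Agent.DR

open Pool.Agent.helper58.DC Pool.Agent.DI

theorem RCY_mem_iff {A : Type} [Group A] [Finite A] [IsCyclic A] (V : Subgroup A) (x : A) :
    x ∈ V ↔ x ^ Nat.card V = 1 := by
  classical
  haveI := Fintype.ofFinite A
  have hpos : 0 < Nat.card V := Nat.card_pos
  have hle := IsCyclic.card_pow_eq_one_le (α := A) hpos
  have hTS : (Finset.univ.filter (fun a : A => a ∈ V)) ⊆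
      Finset.univ.filter (fun a : A => a ^ Nat.card V = 1) := by
    intro a ha
    rw [Finset.mem_filter] at ha ⊢
    refine ⟨Finset.mem_univ a, ?_⟩
    have h := pow_card_eq_one' (G := V) (x := ⟨a, ha.2⟩)
    exact congrArg Subtype.val h
  have hTc : (Finset.univ.filter (fun a : A => a ∈ V)).card = Nat.card V := by
    rw [Nat.card_eq_fintype_card]
    exact (Fintype.card_subtype _).symm
  have hEq := Finset.eq_of_subset_of_card_le hTS (by rw [hTc]; exact hle)
  have h := Finset.ext_iff.1 hEq x
  simpa using h

theorem RCY : RCY_stmt := by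
  intro p _ A _ _ hRed ⟨P, hPp, hPn, s, hs⟩
  by_cases hP : P = ⊥
  · -- the group is cyclic
    have hcyc : IsCyclic A := by
      refine ⟨s, fun x => ?_⟩
      obtain ⟨k, hk⟩ := hs x
      rw [hP, Subgroup.mem_bot] at hk
      refine ⟨-k, ?_⟩
      change s ^ (-k) = x
      rw [zpow_neg]
      exact inv_eq_of_mul_eq_one_right hk
    by_contra hns
    rw [not_subsingleton_iff_nontrivial] at hns
    have hcard : Nat.card A ≠ 1 := by
      have := Finite.one_lt_card (α := A)
      omega
    obtain ⟨r, hr, hrd⟩ := Nat.exists_prime_and_dvd hcard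
    haveI : Fact r.Prime := ⟨hr⟩
    obtain ⟨x, hx⟩ := exists_prime_orderOf_dvd_card' (G := A) r hrd
    have hcomm : ∀ a b : A, a * b = b * a := by
      intro a b
      haveI := hcyc
      letI := IsCyclic.commGroup (α := A)
      exact mul_comm a b
    have hNc : Nat.card (Subgroup.zpowers x) = r := by rw [Nat.card_zpowers, hx]
    have hmin : MinAb (Subgroup.zpowers x) := by
      refine ⟨?_, ?_, ?_, ?_⟩
      · intro h
        rw [h, Subgroup.card_bot] at hNc
        exact hr.one_lt.ne hNc
      · refine ⟨fun y hy g => ?_⟩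
        rw [hcomm g y, mul_assoc, mul_inv_cancel, mul_one]
        exact hy
      · intro K _ hK
        have hd : Nat.card K ∣ r := by
          rw [← hNc]
          exact Subgroup.card_dvd_of_le hK
        rcases (Nat.dvd_prime hr).1 hd with h | h
        · exact Or.inl (Subgroup.eq_bot_of_card_eq K h)
        · exact Or.inr (Subgroup.eq_of_le_of_card_ge hK (by rw [hNc, h]))
      · intro a _ b _
        exact hcomm a b
    have h1 := (hRed _ hmin).2
    rw [hNc] at h1
    have h2 : Subsingleton {V : Subgroup A // IsCpl (Subgroup.zpowers x) V} := by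
      refine ⟨fun V W => Subtype.ext ?_⟩
      have hcd : ∀ V : Subgroup A, IsCpl (Subgroup.zpowers x) V →
          Nat.card V * r = Nat.card A := by
        intro V hV
        haveI := hmin.nor
        have hc : Subgroup.IsComplement' V (Subgroup.zpowers x) := by
          apply Subgroup.isComplement'_of_disjoint_and_mul_eq_univ
          · exact disjoint_iff.2 hV.1
          · rw [← Subgroup.mul_normal, hV.2]
            rfl
        have := hc.card_mul_card
        rwa [hNc] at this
      have hVW : Nat.card V.1 = Nat.card W.1 := by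
        have e1 := hcd V.1 V.2
        have e2 := hcd W.1 W.2
        exact Nat.eq_of_mul_eq_mul_right hr.pos (e1.trans e2.symm)
      ext y
      rw [RCY_mem_iff, RCY_mem_iff, hVW]
    have h3 : ncpl (Subgroup.zpowers x) ≤ 1 := by
      unfold ncpl
      exact Finite.card_le_one_iff_subsingleton.2 h2
    rw [h1] at h3
    exact absurd h3 (by have := hr.two_le; omega)
  · exfalso
    haveI : Finite P := inferInstance
    have hnt : Nontrivial P := (Subgroup.nontrivial_iff_ne_bot P).2 hP
    have hcn : Nontrivial (Subgroup.center P) := IsPGroup.center_nontrivial hPp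
    haveI := hPn
    -- the normal subgroup `Z`
    have hZn : (P ⊓ Subgroup.centralizer (P : Set A)).Normal := inferInstance
    have hZ : P ⊓ Subgroup.centralizer (P : Set A) ≠ ⊥ := by
      intro h
      obtain ⟨z, hz⟩ := exists_ne (1 : Subgroup.center P)
      apply hz
      have hzm : (z.1 : A) ∈ P ⊓ Subgroup.centralizer (P : Set A) := by
        refine Subgroup.mem_inf.2 ⟨z.1.2, ?_⟩
        rw [Subgroup.mem_centralizer_iff]
        intro y hy
        have := (Subgroup.mem_center_iff.1 z.2) ⟨y, hy⟩
        exact congrArg Subtype.val this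
      rw [h, Subgroup.mem_bot] at hzm
      exact Subtype.ext (Subtype.ext hzm)
    obtain ⟨K, hK⟩ := Set.Finite.exists_minimal
      (s := {K : Subgroup A | K.Normal ∧ K ≠ ⊥ ∧ K ≤ P ⊓ Subgroup.centralizer (P : Set A)})
      (Set.toFinite _) ⟨_, hZn, hZ, le_refl _⟩
    obtain ⟨⟨hK1, hK2, hK3⟩, hK4⟩ := hK
    have hmin : MinAb K := by
      refine ⟨hK2, hK1, ?_, ?_⟩
      · intro L hL hLK
        by_cases hLb : L = ⊥
        · exact Or.inl hLb
        · exact Or.inr (le_antisymm hLK (hK4 ⟨hL, hLb, hLK.trans hK3⟩ hLK))
      · intro a ha b hb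
        have h1 := (Subgroup.mem_inf.1 (hK3 ha)).1
        have h2 := (Subgroup.mem_inf.1 (hK3 hb)).2
        exact (Subgroup.mem_centralizer_iff.1 h2) a h1
    have h1 := (hRed K hmin).1
    have hKp : IsPGroup p K := hPp.to_le (hK3.trans inf_le_left)
    rcases hKp.card_eq_or_dvd with h | h
    · exact hK2 (Subgroup.eq_bot_of_card_eq K h)
    · exact h1 h

end Pool.Agent.DR
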